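import Mathlib

set_option autoImplicit false

namespace Pool.Agent.X312.CF

/-- `d` is admissible: not divisible by `4`, by `9` or by an odd prime `p ≡ 2 mod 3`. -/
def Admissible (d : ℤ) : Prop :=
  ¬ (4 : ℤ) ∣ d ∧ ¬ (9 : ℤ) ∣ d ∧ ∀ p : ℕ, p.Prime → p ≠ 2 → p % 3 = 2 → ¬ (p : ℤ) ∣ d

/-- Condition (***): `a² d = 2 n² + 2 n + 2` for some integers `n` and `a ≠ 0`. -/
def StarThree (d : ℤ) : Prop := ∃ n a : ℤ, a ≠ 0 ∧ a ^ 2 * d = 2 * n ^ 2 + 2 * n + 2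

section Hensel

variable {p : ℕ} [hp : Fact p.Prime]

theorem solve (α u : ℤ) (z₀ : ℤ)
    (h : ‖((α * z₀ ^ 2 - u : ℤ) : ℤ_[p])‖ < ‖((2 * α * z₀ : ℤ) : ℤ_[p])‖ ^ 2) :
    ∃ z : ℤ_[p], (α : ℤ_[p]) * z ^ 2 = u := by
  have h1 : ∀ x : ℤ_[p], (Polynomial.aeval x) (Polynomial.C α * Polynomial.X ^ 2 -
      Polynomial.C u : Polynomial ℤ) = (α : ℤ_[p]) * x ^ 2 - u := by
    intro x
    simp
  have h2 : ∀ x : ℤ_[p], (Polynomial.aeval x) (Polynomial.derivative (Polynomial.C α *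
      Polynomial.X ^ 2 - Polynomial.C u : Polynomial ℤ)) = 2 * (α : ℤ_[p]) * x := by
    intro x
    have h3 : (Polynomial.aeval x) (2 : Polynomial ℤ) = 2 := map_ofNat _ 2
    simp [h3]
    ring
  have hn : ‖(Polynomial.aeval (z₀ : ℤ_[p])) (Polynomial.C α * Polynomial.X ^ 2 -
      Polynomial.C u : Polynomial ℤ)‖ < ‖(Polynomial.aeval (z₀ : ℤ_[p])) (Polynomial.derivative
      (Polynomial.C α * Polynomial.X ^ 2 - Polynomial.C u : Polynomial ℤ))‖ ^ 2 := by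
    rw [h1, h2]
    push_cast at h
    exact h
  obtain ⟨z, hz, -⟩ := hensels_lemma hn
  rw [h1] at hz
  exact ⟨z, sub_eq_zero.1 hz⟩

theorem solve_unit (α u z₀ : ℤ) (h : (p : ℤ) ∣ α * z₀ ^ 2 - u) (h' : ¬ (p : ℤ) ∣ 2 * α * z₀) :
    ∃ z : ℤ_[p], (α : ℤ_[p]) * z ^ 2 = u := by
  refine solve α u z₀ ?_
  have h1 : ‖((2 * α * z₀ : ℤ) : ℤ_[p])‖ = 1 := by
    refine le_antisymm (PadicInt.norm_le_one _) (not_lt.1 ?_)
    rwa [PadicInt.norm_int_lt_one_iff_dvd]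
  rw [h1, one_pow, PadicInt.norm_int_lt_one_iff_dvd]
  exact h

theorem solve_two [Fact (Nat.Prime 2)] (u : ℤ) (h : (8 : ℤ) ∣ 1 - u) :
    ∃ z : ℤ_[2], z ^ 2 = u := by
  have := solve (p := 2) 1 u 1 ?_
  · obtain ⟨z, hz⟩ := this
    refine ⟨z, ?_⟩
    simpa using hz
  · have h1 : ‖((1 * 1 ^ 2 - u : ℤ) : ℤ_[2])‖ ≤ ((2 : ℕ) : ℝ) ^ (-(3 : ℕ) : ℤ) := by
      rw [PadicInt.norm_int_le_pow_iff_dvd]
      norm_num
      exact h
    have h2 : ‖((2 * 1 * 1 : ℤ) : ℤ_[2])‖ = 1 / 2 := by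
      have := PadicInt.norm_p (p := 2)
      push_cast at this ⊢
      rw [this]
      norm_num
    rw [h2]
    refine lt_of_le_of_lt h1 ?_
    norm_num

end Hensel

/-- the cube root of unity mod `p` -/
theorem neg_three_sq (p : ℕ) [Fact p.Prime] (h : p % 3 = 1) : ∃ s : ℤ, (p : ℤ) ∣ s ^ 2 + 3 := by
  have hcard : 3 ∣ Nat.card (ZMod p)ˣ := by
    rw [Nat.card_eq_fintype_card, ZMod.card_units_eq_totient, Nat.totient_prime Fact.out]
    omega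
  have : Fact (Nat.Prime 3) := ⟨Nat.prime_three⟩
  obtain ⟨x, hx⟩ := exists_prime_orderOf_dvd_card' 3 hcard
  have h3 : x ^ 3 = 1 := by rw [← hx]; exact pow_orderOf_eq_one x
  have hne : x ≠ 1 := by
    rintro rfl
    rw [orderOf_one] at hx
    omega
  obtain ⟨y, hy⟩ : ∃ y : ZMod p, y = (x : ZMod p) := ⟨_, rfl⟩
  have hy3 : y ^ 3 = 1 := by rw [hy, ← Units.val_pow_eq_pow_val, h3, Units.val_one]
  have hy1 : y ≠ 1 := by
    intro h'
    apply hne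
    ext
    rw [← hy, h', Units.val_one]
  have hy2 : y ^ 2 + y + 1 = 0 := by
    have : (y - 1) * (y ^ 2 + y + 1) = 0 := by linear_combination hy3
    rcases mul_eq_zero.1 this with h' | h'
    · exact absurd (sub_eq_zero.1 h') hy1
    · exact h'
  obtain ⟨n, hn⟩ := ZMod.intCast_surjective y
  refine ⟨2 * n + 1, ?_⟩
  rw [← ZMod.intCast_zmod_eq_zero_iff_dvd]
  push_cast
  rw [hn]
  linear_combination 4 * hy2

theorem not_two_mod_three {p : ℕ} (hp : p.Prime) {n : ℤ}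
    (h : (p : ℤ) ∣ n ^ 2 + n + 1) : p % 3 ≠ 2 := by
  have : Fact p.Prime := ⟨hp⟩
  intro hmod
  have h1 : ((n : ZMod p)) ^ 2 + n + 1 = 0 := by
    have := (ZMod.intCast_zmod_eq_zero_iff_dvd (n ^ 2 + n + 1) p).2 h
    push_cast at this
    exact this
  have h3 : (n : ZMod p) ^ 3 = 1 := by linear_combination ((n : ZMod p) - 1) * h1
  have hn0 : (n : ZMod p) ≠ 0 := by
    intro h0
    rw [h0] at h3
    norm_num at h3
  have h4 : (n : ZMod p) ^ (p - 1) = 1 := ZMod.pow_card_sub_one_eq_one hn0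
  obtain ⟨k, hk⟩ : ∃ k, p - 1 = 3 * k + 1 := ⟨(p - 2) / 3, by have := hp.two_le; omega⟩
  rw [hk, pow_succ, pow_mul, h3, one_pow, one_mul] at h4
  rw [h4] at h1
  have h5 : ((3 : ℕ) : ZMod p) = 0 := by push_cast; linear_combination h1
  rw [ZMod.natCast_eq_zero_iff] at h5
  have := (Nat.prime_dvd_prime_iff_eq hp Nat.prime_three).1 h5
  omega

theorem StarThree.admissible {d : ℤ} (h : StarThree d) : Admissible d := by
  obtain ⟨n, a, ha, h⟩ := h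
  refine ⟨?_, ?_, ?_⟩
  · rintro ⟨k, rfl⟩
    have h1 : a ^ 2 * (2 * k) = n ^ 2 + n + 1 := by linarith
    have h2 : (n ^ 2 + n + 1) % 2 = 1 := by
      rcases Int.emod_two_eq_zero_or_one n with h' | h' <;> simp [pow_two, Int.add_emod, Int.mul_emod, h']
    have h3 : (a ^ 2 * (2 * k)) % 2 = 0 := by
      rw [show a ^ 2 * (2 * k) = 2 * (a ^ 2 * k) by ring]
      exact Int.mul_emod_right _ _
    omega
  · rintro ⟨k, rfl⟩
    have h1 : (2 * n ^ 2 + 2 * n + 2) % 9 = 0 := by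
      rw [← h, show a ^ 2 * (9 * k) = 9 * (a ^ 2 * k) by ring]
      exact Int.mul_emod_right _ _
    have h2 : n % 9 = 0 ∨ n % 9 = 1 ∨ n % 9 = 2 ∨ n % 9 = 3 ∨ n % 9 = 4 ∨ n % 9 = 5 ∨ n % 9 = 6 ∨
      n % 9 = 7 ∨ n % 9 = 8 := by omega
    rcases h2 with h' | h' | h' | h' | h' | h' | h' | h' | h' <;>
      simp [pow_two, Int.add_emod, Int.mul_emod, h'] at h1
  · rintro p hp h2 hmod ⟨k, rfl⟩
    have h1 : (p : ℤ) ∣ 2 * (n ^ 2 + n + 1) := ⟨a ^ 2 * k, by linarith⟩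
    have h3 : IsCoprime (p : ℤ) 2 := by
      rw [Int.isCoprime_iff_gcd_eq_one]
      have := (Nat.coprime_primes hp Nat.prime_two).2 h2
      exact_mod_cast this
    exact not_two_mod_three hp (h3.dvd_of_dvd_mul_left h1) hmod

end Pool.Agent.X312.CF

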