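import Mathlib
import Pool.Agent.X312.CF.Num

set_option autoImplicit false

namespace Pool.Agent.X312.CF

/-- The lattice `A(X)` of algebraic classes of codimension 2 of a smooth cubic fourfold `X`, with
the intersection form `b` and the square `h` of the hyperplane class: `b` is positive definite,
`b(h, h) = 3`, and `b` is even on the orthogonal complement of `h`. -/
structure CLat where
  A : Type
  [grp : AddCommGroup A]
  [fin : Module.Finite ℤ A]
  b : LinearMap.BilinForm ℤ A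
  symm : ∀ x y, b x y = b y x
  pos : ∀ x, x ≠ 0 → 0 < b x x
  h : A
  hh : b h h = 3
  even : ∀ x, b x h = 0 → Even (b x x)

attribute [instance] CLat.grp CLat.fin

namespace CLat

variable (L : CLat)

/-- The Gram determinant of `h` and `v`. -/
def q (v : L.A) : ℤ := L.b L.h L.h * L.b v v - L.b v L.h * L.b v L.h

/-- the bilinear form of `q` -/
def B (v w : L.A) : ℤ := 3 * L.b v w - L.b v L.h * L.b w L.h

/-- `X` lies in the divisor `C_d`: there is a saturated sublattice `K` of rank `2` which contains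
`h` and has discriminant `d`; `K` has a basis `h, v`. -/
def Lab (d : ℤ) : Prop :=
  ∃ v : L.A, (∀ (u : L.A) (n : ℤ), n ≠ 0 → n • u ∈ Submodule.span ℤ {L.h, v} →
    u ∈ Submodule.span ℤ {L.h, v}) ∧ L.q v = d ∧ d ≠ 0

variable {L}

theorem q_def (v : L.A) : L.q v = 3 * L.b v v - L.b v L.h ^ 2 := by
  unfold q; rw [L.hh, pow_two]

theorem hs (v : L.A) : L.b L.h v = L.b v L.h := L.symm _ _

theorem q_comb (a c : ℤ) (w : L.A) : L.q (a • w + c • L.h) = a ^ 2 * L.q w := by
  simp only [q_def, map_add, map_smul, LinearMap.add_apply, LinearMap.smul_apply, smul_eq_mul,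
    L.hh, hs]
  ring

theorem q_even (v : L.A) : Even (L.q v) := by
  have h1 : L.b (3 • v + (-(L.b v L.h)) • L.h) L.h = 0 := by
    simp only [map_add, map_smul, LinearMap.add_apply, LinearMap.smul_apply, smul_eq_mul, L.hh,
      nsmul_eq_mul, map_nsmul, LinearMap.smul_apply]
    push_cast
    ring
  have h2 := L.even _ h1
  have h3 : L.b (3 • v + (-(L.b v L.h)) • L.h) (3 • v + (-(L.b v L.h)) • L.h) = 3 * L.q v := by
    simp only [q_def, map_add, map_smul, LinearMap.add_apply, LinearMap.smul_apply, smul_eq_mul,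
      L.hh, nsmul_eq_mul, map_nsmul, LinearMap.smul_apply, hs]
    push_cast
    ring
  rw [h3] at h2
  rcases Int.even_mul.1 h2 with h4 | h4
  · exact absurd h4 (by decide)
  · exact h4

theorem self_nonneg (x : L.A) : 0 ≤ L.b x x := by
  by_cases hx : x = 0
  · rw [hx]; simp
  · exact (L.pos x hx).le

theorem eq_zero {x : L.A} (h : L.b x x = 0) : x = 0 := by
  by_contra hx
  exact absurd h (L.pos x hx).ne'

theorem smul_inj {n : ℤ} (hn : n ≠ 0) {x : L.A} (h : n • x = 0) : x = 0 := by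
  apply eq_zero
  have h1 : L.b (n • x) (n • x) = 0 := by rw [h]; simp
  simp only [map_smul, LinearMap.smul_apply, smul_eq_mul] at h1
  rcases mul_eq_zero.1 h1 with h2 | h2
  · exact absurd h2 hn
  · exact (mul_eq_zero.1 h2).resolve_left hn

theorem three_q (v : L.A) :
    L.b ((3 : ℤ) • v + (-(L.b v L.h)) • L.h) ((3 : ℤ) • v + (-(L.b v L.h)) • L.h) = 3 * L.q v := by
  simp only [q_def, map_add, map_smul, LinearMap.add_apply, LinearMap.smul_apply, smul_eq_mul,
    L.hh, hs]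
  ring

theorem q_nonneg (v : L.A) : 0 ≤ L.q v := by
  have h1 := self_nonneg ((3 : ℤ) • v + (-(L.b v L.h)) • L.h)
  rw [three_q] at h1
  linarith

theorem of_q_zero {v : L.A} (h : L.q v = 0) : ∃ c : ℤ, v = c • L.h := by
  have h1 : (3 : ℤ) • v + (-(L.b v L.h)) • L.h = 0 := by
    apply eq_zero
    rw [three_q, h, mul_zero]
  have h2 : (3 : ℤ) ∣ L.b v L.h ^ 2 := by
    rw [q_def] at h
    exact ⟨L.b v v, by linarith⟩
  have h3 : (3 : ℤ) ∣ L.b v L.h := Int.prime_three.dvd_of_dvd_pow h2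
  obtain ⟨c, hc⟩ := h3
  refine ⟨c, ?_⟩
  have h4 : (3 : ℤ) • (v - c • L.h) = 0 := by
    rw [smul_sub, smul_smul, ← hc, ← h1]
    rw [neg_smul]
    abel
  exact sub_eq_zero.1 (smul_inj (by norm_num) h4)

theorem mem_span {u v : L.A} : u ∈ Submodule.span ℤ {L.h, v} ↔ ∃ x y : ℤ, x • L.h + y • v = u :=
  Submodule.mem_span_pair

/-- Every vector outside `ℤ h` lies in a sublattice `K`. -/
theorem exists_lab {v : L.A} (hv : L.q v ≠ 0) : ∃ d a : ℤ, a ≠ 0 ∧ L.Lab d ∧ L.q v = a ^ 2 * d := by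
  classical
  have hex : ∃ m : ℕ, ∃ (w : L.A) (a c : ℤ), a ≠ 0 ∧ v = a • w + c • L.h ∧ (L.q w).natAbs = m :=
    ⟨_, v, 1, 0, by norm_num, by simp, rfl⟩
  obtain ⟨w, a, c, ha, hvw, hm⟩ := Nat.find_spec hex
  have hmin : ∀ (w' : L.A) (a' c' : ℤ), a' ≠ 0 → v = a' • w' + c' • L.h →
      (L.q w).natAbs ≤ (L.q w').natAbs := by
    intro w' a' c' h1 h2
    rw [hm]
    exact Nat.find_min' hex ⟨w', a', c', h1, h2, rfl⟩
  have hqv : L.q v = a ^ 2 * L.q w := by rw [hvw, q_comb]
  have hqw : L.q w ≠ 0 := by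
    intro h0
    rw [h0, mul_zero] at hqv
    exact hv hqv
  refine ⟨L.q w, a, ha, ⟨w, ?_, rfl, hqw⟩, hqv⟩
  intro u n hn hu
  obtain ⟨x, y, hxy⟩ := mem_span.1 hu
  obtain ⟨g, hg⟩ : ∃ g : ℤ, g = (Int.gcd n y : ℤ) := ⟨_, rfl⟩
  have hg0 : g ≠ 0 := by
    rw [hg]
    have : Int.gcd n y ≠ 0 := fun h => hn (Int.gcd_eq_zero_iff.1 h).1
    exact_mod_cast this
  have hbez : g = n * Int.gcdA n y + y * Int.gcdB n y := by rw [hg]; exact Int.gcd_eq_gcd_ab n y
  obtain ⟨s, hs'⟩ : ∃ s, s = Int.gcdA n y := ⟨_, rfl⟩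
  obtain ⟨t, ht⟩ : ∃ t, t = Int.gcdB n y := ⟨_, rfl⟩
  rw [← hs', ← ht] at hbez
  obtain ⟨n', hn'⟩ : g ∣ n := by rw [hg]; exact Int.gcd_dvd_left ..
  have h1 : g • (w - n' • (t • u + s • w)) = (-(t * x)) • L.h := by
    have h2 : (g * n') • (t • u + s • w) = (t * x) • L.h + g • w := by
      rw [← hn']
      calc n • (t • u + s • w) = t • (n • u) + (n * s) • w := by
            rw [smul_add, smul_smul, smul_smul, smul_smul]; congr 2; ring
        _ = (t * x) • L.h + g • w := by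
            rw [← hxy, smul_add, smul_smul, smul_smul, add_assoc, ← add_smul, hbez]
            congr 2; ring
    rw [smul_sub, smul_smul, h2, neg_smul]
    abel
  have h2 : L.q (w - n' • (t • u + s • w)) = 0 := by
    have h3 := q_comb g 0 (w - n' • (t • u + s • w))
    rw [zero_smul, add_zero, h1] at h3
    have h4 := q_comb (L := L) 0 (-(t * x)) 0
    rw [smul_zero, zero_add] at h4
    rw [h4] at h3
    have h5 : g ^ 2 * L.q (w - n' • (t • u + s • w)) = 0 := by rw [← h3]; ring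
    exact (mul_eq_zero.1 h5).resolve_left (pow_ne_zero 2 hg0)
  obtain ⟨c', hc'⟩ := of_q_zero h2
  obtain ⟨w', hw'⟩ : ∃ w', w' = t • u + s • w := ⟨_, rfl⟩
  rw [← hw'] at hc'
  have hw : w = n' • w' + c' • L.h := by rw [← hc']; abel
  have hn'0 : n' ≠ 0 := by
    rintro rfl
    exact hn (by rw [hn', mul_zero])
  have h6 := hmin w' (a * n') (c + a * c') (mul_ne_zero ha hn'0) (by
    rw [hvw, hw, smul_add, smul_smul, smul_smul, add_smul]
    abel)
  have h7 : L.q w = n' ^ 2 * L.q w' := by rw [hw, q_comb]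
  have h8 : n' ^ 2 = 1 := by
    have h9 := q_nonneg w'
    have h10 := q_nonneg w
    have h11 : L.q w ≤ L.q w' := by omega
    have h12 : 0 < L.q w' := by
      rcases h9.lt_or_eq with h | h
      · exact h
      · rw [← h, mul_zero] at h7
        exact absurd h7 hqw
    have h13 : 0 < n' ^ 2 := by positivity
    nlinarith
  have hny : n ∣ y := by
    have h9 : g ∣ y := by rw [hg]; exact Int.gcd_dvd_right ..
    have h10 : n ∣ g := ⟨n', by rw [hn', mul_assoc, ← pow_two, h8, mul_one]⟩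
    exact h10.trans h9
  obtain ⟨y', hy'⟩ := hny
  have h9 : L.q (u - y' • w) = 0 := by
    have h10 : n • (u - y' • w) = x • L.h := by
      rw [smul_sub, ← hxy, smul_smul, ← hy']; abel
    have h3 := q_comb n 0 (u - y' • w)
    rw [zero_smul, add_zero, h10] at h3
    have h4 := q_comb (L := L) 0 x 0
    rw [smul_zero, zero_add] at h4
    rw [h4] at h3
    have h5 : n ^ 2 * L.q (u - y' • w) = 0 := by rw [← h3]; ring
    exact (mul_eq_zero.1 h5).resolve_left (pow_ne_zero 2 hn)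
  obtain ⟨c'', hc''⟩ := of_q_zero h9
  exact mem_span.2 ⟨c'', y', by rw [← hc'']; abel⟩

/-- A value `2 n² + 2 n + 2` of `q` gives a discriminant with (***). -/
theorem star_of_value {v : L.A} {n : ℤ} (h : L.q v = 2 * n ^ 2 + 2 * n + 2) :
    ∃ d, L.Lab d ∧ StarThree d := by
  have h0 : L.q v ≠ 0 := by
    rw [h]
    have : 0 < 2 * n ^ 2 + 2 * n + 2 := by nlinarith [sq_nonneg (2 * n + 1)]
    exact this.ne'
  obtain ⟨d, a, ha, hd, hq⟩ := exists_lab h0
  exact ⟨d, hd, n, a, ha, by rw [← hq, h]⟩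

theorem Lab.even {d : ℤ} (h : L.Lab d) : Even d := by
  obtain ⟨v, -, h, -⟩ := h
  rw [← h]
  exact q_even v

theorem Lab.pos {d : ℤ} (h : L.Lab d) : 0 < d := by
  obtain ⟨v, -, h, h0⟩ := h
  have := q_nonneg v
  omega

end CLat

end Pool.Agent.X312.CF
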