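import Mathlib
import Pool.Agent.X312.CF.Num

set_option autoImplicit false

namespace Pool.Agent.X312.CF

theorem one_mod_three (e : ℕ) (he : e ≠ 0) (h : ∀ q : ℕ, q.Prime → q ∣ e → q % 3 = 1) :
    e % 3 = 1 := by
  induction e using induction_on_primes with
  | zero => exact absurd rfl he
  | one => norm_num
  | prime_mul q a hq ih =>
    have ha : a ≠ 0 := fun h' => he (by rw [h', mul_zero])
    have h1 := h q hq ⟨a, rfl⟩
    have h2 := ih ha (fun r hr hra => h r hr (hra.mul_left q))
    rw [Nat.mul_mod, h1, h2]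

theorem solve_mod (p : ℕ) [Fact p.Prime] (hp2 : p ≠ 2) (D : ℤ) (hD : ¬ (p : ℤ) ∣ D) :
    ∃ a s : ℤ, (p : ℤ) ∣ D * a ^ 2 - s ^ 2 - 3 := by
  have hp : p.Prime := Fact.out
  have hodd : p % 2 = 1 := by
    rcases hp.eq_two_or_odd with h | h
    · exact absurd h hp2
    · exact h
  have hD' : (D : ZMod p) ≠ 0 := by
    intro h
    exact hD ((ZMod.intCast_zmod_eq_zero_iff_dvd D p).1 h)
  obtain ⟨a, s, h⟩ := FiniteField.exists_root_sum_quadratic (R := ZMod p)
    (f := Polynomial.C (D : ZMod p) * Polynomial.X ^ 2)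
    (g := Polynomial.C (-1) * Polynomial.X ^ 2 + Polynomial.C 0 * Polynomial.X +
      Polynomial.C (-3))
    (Polynomial.degree_C_mul_X_pow 2 hD')
    (Polynomial.degree_quadratic (by norm_num)) (by rw [ZMod.card, hodd])
  obtain ⟨a', rfl⟩ := ZMod.intCast_surjective a
  obtain ⟨s', rfl⟩ := ZMod.intCast_surjective s
  refine ⟨a', s', ?_⟩
  rw [← ZMod.intCast_zmod_eq_zero_iff_dvd]
  simp at h
  push_cast
  linear_combination h

theorem local_solvable {d : ℤ} (hd : Even d) (hd0 : 0 < d) (h : Admissible d) (p : ℕ)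
    [Fact p.Prime] : ∃ a s : ℤ_[p], 2 * (d : ℤ_[p]) * a ^ 2 - s ^ 2 = 3 := by
  have hp : p.Prime := Fact.out
  obtain ⟨h4, h9, hadm⟩ := h
  obtain ⟨e, he⟩ := hd
  have hde : d = 2 * e := by omega
  have he2 : e % 2 = 1 := by
    rcases Int.emod_two_eq_zero_or_one e with h' | h'
    · exfalso
      exact h4 (by omega)
    · exact h'
  have he0 : 0 < e := by omega
  by_cases hp2 : p = 2
  · subst hp2
    obtain ⟨s, hs⟩ := solve_two (4 * e - 3) (by omega)
    refine ⟨1, s, ?_⟩
    rw [hs, hde]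
    push_cast
    ring
  by_cases hp3 : p = 3
  · subst hp3
    by_cases h3 : (3 : ℤ) ∣ e
    · obtain ⟨e', he'⟩ := h3
      have hmod : e' % 3 = 1 := by
        have h5 : e'.natAbs % 3 = 1 := by
          refine one_mod_three _ (by omega) fun q hq hqe => ?_
          have hq1 : (q : ℤ) ∣ e' := Int.natCast_dvd.2 hqe
          have hqd : (q : ℤ) ∣ d := by rw [hde, he']; exact (hq1.mul_left 3).mul_left 2
          have hq2 : q ≠ 2 := by
            rintro rfl
            have : (2 : ℤ) ∣ e := by rw [he']; exact hq1.mul_left 3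
            omega
          have hq3 : q ≠ 3 := by
            rintro rfl
            obtain ⟨c, hc⟩ := hq1
            exact h9 ⟨2 * c, by rw [hde, he', hc]; push_cast; ring⟩
          have h6 : ¬ q % 3 = 2 := fun hh => hadm q hq hq2 hh hqd
          have h7 : q % 3 ≠ 0 := fun h8 => hq3
            ((Nat.prime_dvd_prime_iff_eq Nat.prime_three hq).1 (Nat.dvd_of_mod_eq_zero h8)).symm
          omega
        omega
      obtain ⟨z, hz⟩ := solve_unit (p := 3) (4 * e') 1 1 (by push_cast; omega) (by push_cast; omega)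
      refine ⟨z, 0, ?_⟩
      rw [hde, he']
      push_cast at hz ⊢
      linear_combination 3 * hz
    · have hmod : e % 3 = 1 := by
        have h5 : e.natAbs % 3 = 1 := by
          refine one_mod_three _ (by omega) fun q hq hqe => ?_
          have hq1 : (q : ℤ) ∣ e := Int.natCast_dvd.2 hqe
          have hqd : (q : ℤ) ∣ d := by rw [hde]; exact hq1.mul_left 2
          have hq2 : q ≠ 2 := by
            rintro rfl
            have : (2 : ℤ) ∣ e := hq1
            omega
          have hq3 : q ≠ 3 := by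
            rintro rfl
            exact h3 hq1
          have h6 : ¬ q % 3 = 2 := fun hh => hadm q hq hq2 hh hqd
          have h7 : q % 3 ≠ 0 := fun h8 => hq3
            ((Nat.prime_dvd_prime_iff_eq Nat.prime_three hq).1 (Nat.dvd_of_mod_eq_zero h8)).symm
          omega
        omega
      obtain ⟨z, hz⟩ := solve_unit (p := 3) 1 (4 * e - 3) 1 (by push_cast; omega) (by norm_num)
      refine ⟨1, z, ?_⟩
      rw [hde]
      push_cast at hz ⊢
      linear_combination -hz
  have hodd : ¬ (p : ℤ) ∣ 2 := by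
    intro h'
    have h'' : p ∣ 2 := by exact_mod_cast h'
    exact hp2 ((Nat.prime_dvd_prime_iff_eq hp Nat.prime_two).1 h'')
  have h3 : ¬ (p : ℤ) ∣ 3 := by
    intro h'
    have h'' : p ∣ 3 := by exact_mod_cast h'
    exact hp3 ((Nat.prime_dvd_prime_iff_eq hp Nat.prime_three).1 h'')
  have hpZ : Prime (p : ℤ) := Nat.prime_iff_prime_int.1 hp
  have hmod : p % 3 = 1 ∨ p % 3 = 2 := by
    have h7 : p % 3 ≠ 0 := fun h8 => hp3
      ((Nat.prime_dvd_prime_iff_eq Nat.prime_three hp).1 (Nat.dvd_of_mod_eq_zero h8)).symm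
    omega
  rcases hmod with h1 | h1
  · obtain ⟨s, hs⟩ := neg_three_sq p h1
    have hs0 : ¬ (p : ℤ) ∣ s := by
      intro h'
      apply h3
      have : (p : ℤ) ∣ s ^ 2 := h'.trans (dvd_pow_self s two_ne_zero)
      exact (Int.dvd_add_right this).1 hs
    obtain ⟨z, hz⟩ := solve_unit (p := p) 1 (-3) s (by simpa using hs) (by
      intro h'
      rcases hpZ.dvd_or_dvd h' with h'' | h''
      · exact hodd (by simpa using h'')
      · exact hs0 h'')
    refine ⟨0, z, ?_⟩
    push_cast at hz ⊢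
    linear_combination -hz
  · have hpd : ¬ (p : ℤ) ∣ d := hadm p hp hp2 h1
    have hpD : ¬ (p : ℤ) ∣ 2 * d := by
      intro h'
      rcases hpZ.dvd_or_dvd h' with h'' | h''
      · exact hodd h''
      · exact hpd h''
    obtain ⟨a, s, has⟩ := solve_mod p hp2 (2 * d) hpD
    by_cases ha : (p : ℤ) ∣ a
    · have hs0 : ¬ (p : ℤ) ∣ s := by
        intro h'
        apply h3
        have h5 : (p : ℤ) ∣ 2 * d * a ^ 2 := (ha.trans (dvd_pow_self a two_ne_zero)).mul_left _
        have h6 : (p : ℤ) ∣ s ^ 2 := h'.trans (dvd_pow_self s two_ne_zero)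
        have h7 : (p : ℤ) ∣ (2 * d * a ^ 2 - s ^ 2) - (2 * d * a ^ 2 - s ^ 2 - 3) :=
          dvd_sub (dvd_sub h5 h6) has
        have h8 : (2 * d * a ^ 2 - s ^ 2) - (2 * d * a ^ 2 - s ^ 2 - 3) = 3 := by ring
        rwa [h8] at h7
      obtain ⟨z, hz⟩ := solve_unit (p := p) 1 (2 * d * a ^ 2 - 3) s (by
        have h5 : 1 * s ^ 2 - (2 * d * a ^ 2 - 3) = -(2 * d * a ^ 2 - s ^ 2 - 3) := by ring
        rw [h5]
        exact (dvd_neg).2 has) (by
        intro h'
        rcases hpZ.dvd_or_dvd h' with h'' | h''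
        · exact hodd (by simpa using h'')
        · exact hs0 h'')
      refine ⟨(a : ℤ_[p]), z, ?_⟩
      push_cast at hz ⊢
      linear_combination -hz
    · obtain ⟨z, hz⟩ := solve_unit (p := p) (2 * d) (3 + s ^ 2) a (by
        have h5 : 2 * d * a ^ 2 - (3 + s ^ 2) = 2 * d * a ^ 2 - s ^ 2 - 3 := by ring
        rw [h5]
        exact has) (by
        intro h'
        rcases hpZ.dvd_or_dvd h' with h'' | h''
        · rcases hpZ.dvd_or_dvd h'' with h5 | h5
          · exact hodd h5
          · exact hpD h5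
        · exact ha h'')
      refine ⟨z, (s : ℤ_[p]), ?_⟩
      push_cast at hz ⊢
      linear_combination hz

end Pool.Agent.X312.CF
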