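import Mathlib
import Pool.Agent.X312.CF.Lat
import Pool.Agent.X312.CF.Local

set_option autoImplicit false

namespace Pool.Agent.X312.CF

open Matrix

/-- The theorem of Eichler and Kneser: an indefinite integral quadratic form in at least four
variables represents every nonzero integer that it represents over all rings `ℤ_p`. -/
def LocalGlobal : Prop :=
  ∀ (ι : Type) [Fintype ι] [DecidableEq ι] (f : Matrix ι ι ℤ), 4 ≤ Fintype.card ι → f.IsSymm →
    f.det ≠ 0 → (∃ x : ι → ℤ, 0 < x ⬝ᵥ f *ᵥ x) → (∃ x : ι → ℤ, x ⬝ᵥ f *ᵥ x < 0) →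
    ∀ m : ℤ, m ≠ 0 →
      (∀ (p : ℕ) [Fact p.Prime], ∃ x : ι → ℤ_[p], x ⬝ᵥ (f.map (Int.cast : ℤ → ℤ_[p])) *ᵥ x = m) →
      ∃ x : ι → ℤ, x ⬝ᵥ f *ᵥ x = m

theorem exists_indep {A : Type} [AddCommGroup A] [Module.Finite ℤ A] (s : Finset A)
    (h : s.card < Module.finrank ℤ A) :
    ∃ v : A, ∀ n : ℤ, n • v ∈ Submodule.span ℤ (s : Set A) → n = 0 := by
  by_contra hcon
  push Not at hcon
  have h1 := Submodule.finrank_quotient_add_finrank (Submodule.span ℤ (s : Set A))
  have h2 : Module.finrank ℤ (A ⧸ Submodule.span ℤ (s : Set A)) = 0 := by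
    rw [Module.finrank_eq_zero_iff]
    intro x
    obtain ⟨v, rfl⟩ := Submodule.Quotient.mk_surjective _ x
    obtain ⟨n, h3, h4⟩ := hcon v
    exact ⟨n, h4, by rw [← Submodule.Quotient.mk_smul, Submodule.Quotient.mk_eq_zero]; exact h3⟩
  have h3 := finrank_span_finset_le_card (R := ℤ) s
  unfold Set.finrank at h3
  omega

namespace CLat

variable {L : CLat}

theorem B_comb (x y z : ℤ) (u v w : L.A) :
    L.q (x • u + y • v + z • w) = L.B u u * x ^ 2 + L.B v v * y ^ 2 + L.B w w * z ^ 2 +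
      2 * L.B u v * (x * y) + 2 * L.B u w * (x * z) + 2 * L.B v w * (y * z) := by
  simp only [q_def, B, map_add, map_smul, LinearMap.add_apply, LinearMap.smul_apply, smul_eq_mul,
    L.symm v u, L.symm w u, L.symm w v]
  ring

/-- the matrix of `2 q(x u + y v + z w) - s²` -/
def fmat (u v w : L.A) : Matrix (Fin 4) (Fin 4) ℤ :=
  !![2 * L.B u u, 2 * L.B u v, 2 * L.B u w, 0;
    2 * L.B u v, 2 * L.B v v, 2 * L.B v w, 0;
    2 * L.B u w, 2 * L.B v w, 2 * L.B w w, 0;
    0, 0, 0, -1]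

theorem fmat_eval (u v w : L.A) (x : Fin 4 → ℤ) :
    x ⬝ᵥ fmat u v w *ᵥ x = 2 * L.q (x 0 • u + x 1 • v + x 2 • w) - x 3 ^ 2 := by
  rw [B_comb]
  simp [fmat, dotProduct, mulVec, Fin.sum_univ_four]
  ring

theorem B_self (v : L.A) : L.B v v = L.q v := by
  rw [q_def]; unfold B; ring

theorem exists_star (hLG : LocalGlobal) (hr : 4 ≤ Module.finrank ℤ L.A) {d : ℤ} (hd : L.Lab d)
    (ha : Admissible d) : ∃ d', L.Lab d' ∧ StarThree d' := by
  classical
  obtain ⟨u, -, hqu, hd0⟩ := id hd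
  have hdpos := hd.pos
  obtain ⟨v, hv⟩ := exists_indep {L.h, u} (lt_of_le_of_lt Finset.card_le_two (by omega))
  obtain ⟨w, hw⟩ := exists_indep {L.h, u, v} (lt_of_le_of_lt Finset.card_le_three (by omega))
  have hind : ∀ x y z c : ℤ, x • u + y • v + z • w = c • L.h → x = 0 ∧ y = 0 ∧ z = 0 := by
    intro x y z c h
    have hz : z = 0 := by
      apply hw
      have h1 : z • w = c • L.h - x • u - y • v := by rw [← h]; abel
      rw [h1]
      refine Submodule.sub_mem _ (Submodule.sub_mem _ ?_ ?_) ?_ <;>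
        exact Submodule.smul_mem _ _ (Submodule.subset_span (by simp))
    subst hz
    have hy : y = 0 := by
      apply hv
      have h1 : y • v = c • L.h - x • u := by rw [← h]; simp
      rw [h1]
      refine Submodule.sub_mem _ ?_ ?_ <;>
        exact Submodule.smul_mem _ _ (Submodule.subset_span (by simp))
    subst hy
    refine ⟨?_, rfl, rfl⟩
    rw [zero_smul, zero_smul, add_zero, add_zero] at h
    have h1 := q_comb (L := L) x 0 u
    rw [zero_smul, add_zero, h] at h1
    have h2 := q_comb (L := L) 0 c 0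
    rw [zero_smul, zero_add] at h2
    rw [h2, hqu] at h1
    have h3 : x ^ 2 * d = 0 := by rw [← h1]; ring
    exact pow_eq_zero_iff (two_ne_zero) |>.1 ((mul_eq_zero.1 h3).resolve_right hd0)
  have hdet : (fmat u v w).det ≠ 0 := by
    intro h0
    obtain ⟨x, hx, hx0⟩ := Matrix.exists_mulVec_eq_zero_iff.2 h0
    have h3 : x 3 = 0 := by
      have := congrFun hx0 3
      simp [fmat, mulVec, dotProduct, Fin.sum_univ_four] at this
      exact this
    have h4 : x ⬝ᵥ fmat u v w *ᵥ x = 0 := by rw [hx0]; simp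
    rw [fmat_eval, h3] at h4
    have h5 : L.q (x 0 • u + x 1 • v + x 2 • w) = 0 := by linarith
    obtain ⟨c, hc⟩ := of_q_zero h5
    obtain ⟨h6, h7, h8⟩ := hind _ _ _ c hc
    apply hx
    funext i
    fin_cases i
    · exact h6
    · exact h7
    · exact h8
    · exact h3
  have hsymm : (fmat u v w).IsSymm := by
    ext i j
    fin_cases i <;> fin_cases j <;> simp [fmat]
  obtain ⟨x, hx⟩ := hLG (Fin 4) (fmat u v w) (by simp) hsymm hdet
    ⟨![1, 0, 0, 0], by
      rw [fmat_eval]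
      simp [hqu]
      omega⟩
    ⟨![0, 0, 0, 1], by
      rw [fmat_eval]
      simp [q_def]⟩ 3 (by norm_num) (by
      intro p hp
      obtain ⟨a, s, has⟩ := local_solvable hd.even hdpos ha p
      refine ⟨![a, 0, 0, s], ?_⟩
      have hBu : L.B u u = d := by rw [B_self, hqu]
      simp [fmat, dotProduct, mulVec, Fin.sum_univ_four, hBu]
      linear_combination has)
  rw [fmat_eval] at hx
  obtain ⟨m, hm⟩ := q_even (x 0 • u + x 1 • v + x 2 • w)
  obtain ⟨n, hn⟩ : ∃ n, x 3 = 2 * n + 1 := by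
    rcases Int.even_or_odd' (x 3) with ⟨n, h | h⟩
    · exfalso
      rw [h, hm] at hx
      have h2 : 4 * m - 4 * n ^ 2 = 3 := by linarith
      omega
    · exact ⟨n, h⟩
  refine star_of_value (v := x 0 • u + x 1 • v + x 2 • w) (n := n) ?_
  rw [hn] at hx
  nlinarith

end CLat

end Pool.Agent.X312.CF
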