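import Mathlib
import Pool.Agent.X312.CF.Lat

set_option autoImplicit false

namespace Pool.Agent.X312.CF

theorem jac_three (n : ℕ) (hn : n % 12 = 5 ∨ n % 12 = 7) : jacobiSym 3 n = -1 := by
  rcases hn with h | h
  · have h1 := jacobiSym.quadratic_reciprocity_one_mod_four' (a := 3) (b := n) (by decide) (by omega)
    have h2 : jacobiSym ((n : ℕ) : ℤ) 3 = -1 := by
      rw [jacobiSym.mod_left]
      have : ((n : ℕ) : ℤ) % ((3 : ℕ) : ℤ) = 2 := by omega
      rw [this]
      decide +kernel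
    exact_mod_cast h1.trans h2
  · have h1 := jacobiSym.quadratic_reciprocity_three_mod_four (a := 3) (b := n) (by decide) (by omega)
    have h2 : jacobiSym ((n : ℕ) : ℤ) 3 = 1 := by
      rw [jacobiSym.mod_left]
      have : ((n : ℕ) : ℤ) % ((3 : ℕ) : ℤ) = 1 := by omega
      rw [this]
      decide +kernel
    rw [h2] at h1
    exact_mod_cast h1

theorem no_sol (m : ℕ) : ∀ (M R Y t : ℤ), M.natAbs = m → (m % 12 = 5 ∨ m % 12 = 7) →
    IsCoprime M R → M * R = 3 * (12 * Y ^ 2 - t ^ 2) → False := by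
  induction m using Nat.strong_induction_on with
  | _ m ih =>
    intro M R Y t hM hm hMR h
    by_cases hc : Int.gcd M Y = 1
    · have hM3 : IsCoprime M 3 := by
        rw [Int.isCoprime_iff_gcd_eq_one]
        have h3 : ¬ 3 ∣ m := by omega
        have : Nat.gcd M.natAbs 3 = 1 := by
          rw [hM]
          exact ((Nat.Prime.coprime_iff_not_dvd Nat.prime_three).2 h3).symm
        exact this
      have h1 : M ∣ 12 * Y ^ 2 - t ^ 2 := hM3.dvd_of_dvd_mul_left ⟨R, h.symm⟩
      have h2 : (m : ℤ) ∣ 12 * Y ^ 2 - t ^ 2 := by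
        rw [← hM]
        exact Int.natAbs_dvd.2 h1
      have h3 : jacobiSym (12 * Y ^ 2) m = jacobiSym (t ^ 2) m := by
        rw [jacobiSym.mod_left (12 * Y ^ 2), jacobiSym.mod_left (t ^ 2)]
        congr 1
        exact (Int.emod_emod_of_dvd _ (dvd_refl _) ▸ (Int.emod_emod_of_dvd _ (dvd_refl _)).symm ▸
          (Int.ModEq.symm ((Int.modEq_iff_dvd).2 h2)))
      have h4 : jacobiSym (12 * Y ^ 2) m = -1 := by
        have e : (12 * Y ^ 2 : ℤ) = 3 * (2 * Y) ^ 2 := by ring
        rw [e, jacobiSym.mul_left, jac_three m hm, jacobiSym.pow_left]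
        have hco : Int.gcd (2 * Y) m = 1 := by
          rw [Int.gcd_comm, ← Int.isCoprime_iff_gcd_eq_one, IsCoprime.mul_right_iff]
          constructor
          · rw [Int.isCoprime_iff_gcd_eq_one]
            have h5 : ¬ 2 ∣ m := by omega
            exact_mod_cast ((Nat.Prime.coprime_iff_not_dvd Nat.prime_two).2 h5).symm
          · rw [Int.isCoprime_iff_gcd_eq_one]
            rw [← hM]
            show Nat.gcd ((M.natAbs : ℤ)).natAbs Y.natAbs = 1
            rw [Int.natAbs_natCast]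
            exact hc
        have h6 : jacobiSym (2 * Y) m ^ 2 = 1 := jacobiSym.sq_one hco
        rw [h6]
        norm_num
      rw [h3, jacobiSym.pow_left] at h4
      nlinarith [sq_nonneg (jacobiSym t m)]
    · obtain ⟨p, hp, hpg⟩ := Nat.exists_prime_and_dvd hc
      have hpM : (p : ℤ) ∣ M := (Int.natCast_dvd_natCast.2 hpg).trans (Int.gcd_dvd_left ..)
      have hpY : (p : ℤ) ∣ Y := (Int.natCast_dvd_natCast.2 hpg).trans (Int.gcd_dvd_right ..)
      have hpZ : Prime (p : ℤ) := Nat.prime_iff_prime_int.1 hp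
      have hpm : p ∣ m := by rw [← hM]; exact Int.natCast_dvd.1 hpM
      have hp2 : p ≠ 2 := by rintro rfl; omega
      have hp3 : p ≠ 3 := by rintro rfl; omega
      have hp3' : ¬ (p : ℤ) ∣ 3 := by
        intro h'
        have h'' : p ∣ 3 := by exact_mod_cast h'
        exact hp3 ((Nat.prime_dvd_prime_iff_eq hp Nat.prime_three).1 h'')
      have hpt : (p : ℤ) ∣ t := by
        have h1 : (p : ℤ) ∣ 3 * (12 * Y ^ 2 - t ^ 2) := by rw [← h]; exact hpM.mul_right R
        have h2 : (p : ℤ) ∣ 12 * Y ^ 2 - t ^ 2 := (hpZ.dvd_or_dvd h1).resolve_left hp3'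
        have h3 : (p : ℤ) ∣ 12 * Y ^ 2 := (hpY.trans (dvd_pow_self Y two_ne_zero)).mul_left _
        have h4 : (p : ℤ) ∣ t ^ 2 := by
          have := dvd_sub h3 h2
          have e : 12 * Y ^ 2 - (12 * Y ^ 2 - t ^ 2) = t ^ 2 := by ring
          rwa [e] at this
        exact hpZ.dvd_of_dvd_pow h4
      obtain ⟨Y', hY'⟩ := hpY
      obtain ⟨t', ht'⟩ := hpt
      have hpR : IsCoprime ((p : ℤ) ^ 2) R := (hMR.of_isCoprime_of_dvd_left hpM).pow_left
      have hp2M : (p : ℤ) ^ 2 ∣ M := by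
        refine hpR.dvd_of_dvd_mul_right ?_
        rw [h, hY', ht']
        exact ⟨3 * (12 * Y' ^ 2 - t' ^ 2), by ring⟩
      obtain ⟨M', hM'⟩ := hp2M
      have hp0 : (p : ℤ) ^ 2 ≠ 0 := pow_ne_zero 2 hpZ.ne_zero
      have hm' : m = p ^ 2 * M'.natAbs := by
        rw [← hM, hM', Int.natAbs_mul, Int.natAbs_pow, Int.natAbs_natCast]
      have hp5 : 5 ≤ p := by
        have := hp.two_le
        rcases Nat.lt_or_ge p 5 with h5 | h5
        · exfalso
          interval_cases p
          · exact hp2 rfl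
          · exact hp3 rfl
          · exact absurd hp (by decide)
        · exact h5
      have hpsq : p ^ 2 % 12 = 1 := by
        have h2 : p % 2 = 1 := by
          rcases hp.eq_two_or_odd with h' | h'
          · exact absurd h' hp2
          · exact h'
        have h3 : p % 3 ≠ 0 := fun h8 => hp3
          ((Nat.prime_dvd_prime_iff_eq Nat.prime_three hp).1 (Nat.dvd_of_mod_eq_zero h8)).symm
        have h12 : p % 12 = 1 ∨ p % 12 = 5 ∨ p % 12 = 7 ∨ p % 12 = 11 := by omega
        rcases h12 with h' | h' | h' | h' <;> simp [pow_two, Nat.mul_mod, h']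
      have hmod : M'.natAbs % 12 = m % 12 := by
        rw [hm', Nat.mul_mod, hpsq, one_mul, Nat.mod_mod]
      have hpos : 0 < M'.natAbs := by
        rcases Nat.eq_zero_or_pos M'.natAbs with h0 | h0
        · rw [h0, mul_zero] at hm'
          omega
        · exact h0
      have hlt : M'.natAbs < m := by
        rw [hm']
        have : 1 < p ^ 2 := by nlinarith
        nlinarith
      refine ih M'.natAbs hlt M' R Y' t' rfl (by rw [hmod]; exact hm)
        (hMR.of_isCoprime_of_dvd_left ⟨(p : ℤ) ^ 2, by rw [hM']; ring⟩) ?_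
      have h7 : (p : ℤ) ^ 2 * (M' * R) = (p : ℤ) ^ 2 * (3 * (12 * Y' ^ 2 - t' ^ 2)) := by
        calc (p : ℤ) ^ 2 * (M' * R) = M * R := by rw [hM']; ring
          _ = 3 * (12 * Y ^ 2 - t ^ 2) := h
          _ = _ := by rw [hY', ht']; ring
      exact mul_left_cancel₀ hp0 h7

theorem no_value (x y n : ℤ) : 24 * x ^ 2 + 54 * y ^ 2 ≠ 2 * n ^ 2 + 2 * n + 2 := by
  intro h
  have h1 : (2 * n + 1) ^ 2 = 3 * (16 * x ^ 2 + 36 * y ^ 2 - 1) := by linarith
  have h2 : (3 : ℤ) ∣ 2 * n + 1 := Int.prime_three.dvd_of_dvd_pow ⟨_, h1⟩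
  obtain ⟨t, ht⟩ := h2
  rw [ht] at h1
  have h3 : 3 * t ^ 2 = 16 * x ^ 2 + 36 * y ^ 2 - 1 := by linarith
  have hx : x % 3 = 1 ∨ x % 3 = 2 := by
    have h4 : x % 3 = 0 ∨ x % 3 = 1 ∨ x % 3 = 2 := by omega
    rcases h4 with h4 | h4 | h4
    · exfalso
      obtain ⟨k, hk⟩ : ∃ k, x = 3 * k := ⟨x / 3, by omega⟩
      rw [hk] at h3
      have : 3 * (t ^ 2 - 48 * k ^ 2 - 12 * y ^ 2) = -1 := by linarith
      omega
    · exact Or.inl h4
    · exact Or.inr h4
  have key : ∀ z : ℤ, z % 3 = 1 → z ^ 2 = x ^ 2 → False := by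
    intro z hz hzx
    have hM : (1 + 4 * z) * (1 - 4 * z) = 3 * (12 * y ^ 2 - t ^ 2) := by
      rw [← hzx] at h3
      linarith
    refine no_sol (1 + 4 * z).natAbs (1 + 4 * z) (1 - 4 * z) y t rfl ?_ ?_ hM
    · rcases le_total 0 (1 + 4 * z) with h0 | h0 <;> omega
    · refine ⟨1 - 2 * z, -(2 * z), ?_⟩
      ring
  rcases hx with h4 | h4
  · exact key x h4 rfl
  · exact key (-x) (by omega) (by ring)

end Pool.Agent.X312.CF
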