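import Mathlib
import Pool.Agent.X312.CF.Lat

set_option autoImplicit false

namespace Pool.Agent.X312.CF

/-- The values of the form `8 x² + 2 β x y + C y²`, `C` even, with `y = 1`. -/
theorem plane_value (β C : ℤ) (hC : Even C) (h : β % 2 = 1 ∨ C % 4 = 2) :
    ∃ x n : ℤ, 8 * x ^ 2 + 2 * β * x + C = 2 * n ^ 2 + 2 * n + 2 := by
  rcases Int.emod_two_eq_zero_or_one β with hβ | hβ
  · have hC2 : C % 4 = 2 := by
      rcases h with h | h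
      · omega
      · exact h
    obtain ⟨c, hc⟩ : ∃ c, C = 4 * c + 2 := ⟨C / 4, by omega⟩
    have h4 : β % 8 = 0 ∨ β % 8 = 4 ∨ β % 8 = 2 ∨ β % 8 = 6 := by omega
    rcases h4 with h4 | h4 | h4 | h4
    · obtain ⟨k, hk⟩ : ∃ k, β = 2 * (4 * k) := ⟨β / 8, by omega⟩
      exact ⟨c - 2 * k ^ 2 - k, 2 * c - 4 * k ^ 2, by rw [hk, hc]; ring⟩
    · obtain ⟨k, hk⟩ : ∃ k, β = 2 * (4 * k + 2) := ⟨β / 8, by omega⟩
      exact ⟨c - 2 * k ^ 2 - 3 * k - 1, 2 * c - 4 * k ^ 2 - 4 * k - 1, by rw [hk, hc]; ring⟩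
    · obtain ⟨k, hk⟩ : ∃ k, β = 2 * (4 * k + 1) := ⟨β / 8, by omega⟩
      rcases Int.emod_two_eq_zero_or_one (c - k) with h5 | h5
      · obtain ⟨j, hj⟩ : ∃ j, c = k + 2 * j := ⟨(c - k) / 2, by omega⟩
        exact ⟨-j + k ^ 2 - k, -1 - 2 * j + 2 * k ^ 2, by rw [hk, hc, hj]; ring⟩
      · obtain ⟨j, hj⟩ : ∃ j, c = k + 2 * j + 1 := ⟨(c - k) / 2, by omega⟩
        exact ⟨j - k ^ 2 - k, 2 * j + 1 - 2 * k ^ 2, by rw [hk, hc, hj]; ring⟩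
    · obtain ⟨k, hk⟩ : ∃ k, β = 2 * (4 * k + 3) := ⟨β / 8, by omega⟩
      rcases Int.emod_two_eq_zero_or_one (c + k) with h5 | h5
      · obtain ⟨j, hj⟩ : ∃ j, c = 2 * j - k := ⟨(c + k) / 2, by omega⟩
        exact ⟨-j + k ^ 2 + k, -(2 * j) + 2 * k ^ 2 + 4 * k, by rw [hk, hc, hj]; ring⟩
      · obtain ⟨j, hj⟩ : ∃ j, c = 2 * j + 1 - k := ⟨(c + k) / 2, by omega⟩
        exact ⟨j - k ^ 2 - 3 * k - 1, 2 * j - 2 * k ^ 2 - 4 * k, by rw [hk, hc, hj]; ring⟩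
  · obtain ⟨c, hc⟩ := hC
    have hc' : C = 2 * c := by omega
    have h8 : β % 8 = 1 ∨ β % 8 = 3 ∨ β % 8 = 5 ∨ β % 8 = 7 := by omega
    rcases h8 with h8 | h8 | h8 | h8
    · obtain ⟨k, hk⟩ : ∃ k, β = 8 * k + 1 := ⟨β / 8, by omega⟩
      exact ⟨c - 4 * k ^ 2 - 2 * k - 1, 2 * c - 8 * k ^ 2 - 2 * k - 2, by rw [hk, hc']; ring⟩
    · obtain ⟨k, hk⟩ : ∃ k, β = 8 * k + 3 := ⟨β / 8, by omega⟩
      exact ⟨-c + 4 * k ^ 2 + 2 * k + 1, -(2 * c) + 8 * k ^ 2 + 6 * k + 2, by rw [hk, hc']; ring⟩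
    · obtain ⟨k, hk⟩ : ∃ k, β = 8 * k + 5 := ⟨β / 8, by omega⟩
      exact ⟨c - 4 * k ^ 2 - 6 * k - 3, 2 * c - 8 * k ^ 2 - 10 * k - 5, by rw [hk, hc']; ring⟩
    · obtain ⟨k, hk⟩ : ∃ k, β = 8 * k + 7 := ⟨β / 8, by omega⟩
      exact ⟨-c + 4 * k ^ 2 + 6 * k + 3, -(2 * c) + 8 * k ^ 2 + 14 * k + 7, by rw [hk, hc']; ring⟩

namespace CLat

variable {L : CLat}

theorem q_add (x : ℤ) (P T : L.A) : L.q (x • P + T) = L.q P * x ^ 2 + 2 * L.B P T * x + L.q T := by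
  simp only [q_def, B, map_add, map_smul, LinearMap.add_apply, LinearMap.smul_apply, smul_eq_mul,
    L.symm T P]
  ring

/-- the class of a plane -/
def IsPlane (P : L.A) : Prop := L.b P P = 3 ∧ L.b P L.h = 1

theorem IsPlane.star {P : L.A} (hP : IsPlane P) (T : L.A)
    (h : L.B P T % 2 = 1 ∨ L.q T % 4 = 2) : ∃ d, L.Lab d ∧ StarThree d := by
  obtain ⟨x, n, hx⟩ := plane_value (L.B P T) (L.q T) (q_even T) h
  refine star_of_value (v := x • P + T) (n := n) ?_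
  rw [q_add, q_def P, hP.1, hP.2, ← hx]
  ring

theorem IsPlane.star_iff {P : L.A} (hP : IsPlane P) :
    (∃ d, L.Lab d ∧ StarThree d) ↔ ∃ d, L.Lab d ∧ ¬ (4 : ℤ) ∣ d := by
  constructor
  · rintro ⟨d, h1, h2⟩
    exact ⟨d, h1, h2.admissible.1⟩
  · rintro ⟨d, ⟨v, h1, h2, h3⟩, h4⟩
    refine hP.star v (Or.inr ?_)
    have := q_even v
    rw [Int.even_iff] at this
    omega

end CLat

end Pool.Agent.X312.CF
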