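import Mathlib
import Pool.Agent.X312.CF.Plane
import Pool.Agent.X312.CF.Local

set_option autoImplicit false

namespace Pool.Agent.X312.CF

theorem exists_odd {β k : ℤ} (h : IsCoprime β k) : ∃ y j : ℤ, β * y = 1 + k * (1 + 2 * j) := by
  obtain ⟨a, b, hab⟩ := h
  rcases Int.even_or_odd' b with ⟨i, hi | hi⟩
  · rcases Int.even_or_odd' β with ⟨c, hc | hc⟩
    · exfalso
      rw [hi, hc] at hab
      have : 2 * (a * c + i * k) = 1 := by linarith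
      omega
    · exact ⟨a + k, c - i, by
        have e : β * (a + k) = (a * β + b * k) + k * (β - b) := by ring
        rw [e, hab, hc, hi]
        ring⟩
  · exact ⟨a, -i - 1, by
      have e : β * a = (a * β + b * k) - b * k := by ring
      rw [e, hab, hi]
      ring⟩

theorem coprime_value {k β : ℤ} (C : ℤ) (h : IsCoprime β k) :
    ∃ x y n : ℤ, 2 * k ^ 2 * x ^ 2 + 2 * β * (x * y) + 2 * C * y ^ 2 = 2 * n ^ 2 + 2 * n + 2 := by
  obtain ⟨y, j, hy⟩ := exists_odd h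
  refine ⟨1 - C * y ^ 2 + j + j ^ 2, y, j + k * (1 - C * y ^ 2 + j + j ^ 2), ?_⟩
  linear_combination 2 * (1 - C * y ^ 2 + j + j ^ 2) * hy

/-- the values of `9 x² + 3 r x + C` -/
theorem value18 (r C : ℤ) (hC : C % 2 = 1)
    (h3 : C % 3 = 1 ∨ (C % 3 = 0 ∧ (r % 3 ≠ 0 ∨ C % 9 = 3))) :
    ∃ x n : ℤ, 9 * x ^ 2 + 3 * r * x + C = n ^ 2 + n + 1 := by
  obtain ⟨κ, rfl⟩ : ∃ κ, C = 2 * κ + 1 := ⟨C / 2, by omega⟩
  rcases Int.even_or_odd' r with ⟨ρ, rfl | rfl⟩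
  · have h4 : (∃ x, 3 * x = ρ ^ 2 - ρ - 2 * κ) ∨ (∃ x, 3 * x = ρ ^ 2 + ρ - 2 * κ) ∨
        ∃ ρ' κ', ρ = 3 * ρ' ∧ κ = 9 * κ' + 1 := by
      have hρ : ρ % 3 = 0 ∨ ρ % 3 = 1 ∨ ρ % 3 = 2 := by omega
      have hκ : κ % 3 = 0 ∨ κ % 3 = 1 := by omega
      rcases hρ with hρ | hρ | hρ
      · obtain ⟨σ, rfl⟩ : ∃ σ, ρ = 3 * σ := ⟨ρ / 3, by omega⟩
        rcases hκ with hκ | hκ
        · obtain ⟨l, rfl⟩ : ∃ l, κ = 3 * l := ⟨κ / 3, by omega⟩
          exact Or.inl ⟨3 * σ ^ 2 - σ - 2 * l, by ring⟩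
        · have h5 : κ % 9 = 1 := by omega
          exact Or.inr (Or.inr ⟨σ, κ / 9, rfl, by omega⟩)
      · obtain ⟨σ, rfl⟩ : ∃ σ, ρ = 3 * σ + 1 := ⟨ρ / 3, by omega⟩
        rcases hκ with hκ | hκ
        · obtain ⟨l, rfl⟩ : ∃ l, κ = 3 * l := ⟨κ / 3, by omega⟩
          exact Or.inl ⟨3 * σ ^ 2 + σ - 2 * l, by ring⟩
        · obtain ⟨l, rfl⟩ : ∃ l, κ = 3 * l + 1 := ⟨κ / 3, by omega⟩
          exact Or.inr (Or.inl ⟨3 * σ ^ 2 + 3 * σ - 2 * l, by ring⟩)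
      · obtain ⟨σ, rfl⟩ : ∃ σ, ρ = 3 * σ + 2 := ⟨ρ / 3, by omega⟩
        rcases hκ with hκ | hκ
        · obtain ⟨l, rfl⟩ : ∃ l, κ = 3 * l := ⟨κ / 3, by omega⟩
          exact Or.inr (Or.inl ⟨3 * σ ^ 2 + 5 * σ + 2 - 2 * l, by ring⟩)
        · obtain ⟨l, rfl⟩ : ∃ l, κ = 3 * l + 1 := ⟨κ / 3, by omega⟩
          exact Or.inl ⟨3 * σ ^ 2 + 3 * σ - 2 * l, by ring⟩
    rcases h4 with ⟨x, hx⟩ | ⟨x, hx⟩ | ⟨ρ', κ', rfl, rfl⟩
    · exact ⟨x, ρ ^ 2 - 2 * κ - 1, by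
        linear_combination (3 * x + (ρ ^ 2 - ρ - 2 * κ) + 2 * ρ) * hx⟩
    · exact ⟨-x, ρ ^ 2 - 2 * κ - 1, by
        linear_combination (3 * x + (ρ ^ 2 + ρ - 2 * κ) - 2 * ρ) * hx⟩
    · exact ⟨ρ' ^ 2 - ρ' - 2 * κ', 3 * (ρ' ^ 2 - 2 * κ') - 2, by ring⟩
  · obtain ⟨t, ht⟩ : ∃ t, ρ ^ 2 + ρ = 2 * t := by
      have := Int.even_mul_succ_self ρ
      obtain ⟨t, ht⟩ := this
      exact ⟨t, by linarith⟩
    have h4 : (∃ x, 3 * x = t - ρ - κ) ∨ (∃ x, 3 * x = -(t + ρ + 1 - κ)) ∨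
        ∃ ρ' κ', ρ = 3 * ρ' + 1 ∧ κ = 9 * κ' + 1 := by
      have hρ : ρ % 3 = 0 ∨ ρ % 3 = 1 ∨ ρ % 3 = 2 := by omega
      have hκ : κ % 3 = 0 ∨ κ % 3 = 1 := by omega
      rcases hρ with hρ | hρ | hρ
      · obtain ⟨σ, rfl⟩ : ∃ σ, ρ = 3 * σ := ⟨ρ / 3, by omega⟩
        have h5 : 2 * t = 3 * (3 * σ ^ 2 + σ) := by rw [← ht]; ring
        rcases hκ with hκ | hκ
        · exact Or.inl ⟨(t - 3 * σ - κ) / 3, by omega⟩
        · exact Or.inr (Or.inl ⟨-(t + 3 * σ + 1 - κ) / 3, by omega⟩)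
      · obtain ⟨σ, rfl⟩ : ∃ σ, ρ = 3 * σ + 1 := ⟨ρ / 3, by omega⟩
        have h5 : 2 * t = 3 * (3 * σ ^ 2 + 3 * σ) + 2 := by rw [← ht]; ring
        rcases hκ with hκ | hκ
        · exact Or.inl ⟨(t - (3 * σ + 1) - κ) / 3, by omega⟩
        · have h5 : κ % 9 = 1 := by omega
          exact Or.inr (Or.inr ⟨σ, κ / 9, rfl, by omega⟩)
      · obtain ⟨σ, rfl⟩ : ∃ σ, ρ = 3 * σ + 2 := ⟨ρ / 3, by omega⟩
        have h5 : 2 * t = 3 * (3 * σ ^ 2 + 5 * σ + 2) := by rw [← ht]; ring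
        rcases hκ with hκ | hκ
        · exact Or.inr (Or.inl ⟨-(t + (3 * σ + 2) + 1 - κ) / 3, by omega⟩)
        · exact Or.inl ⟨(t - (3 * σ + 2) - κ) / 3, by omega⟩
    rcases h4 with ⟨x, hx⟩ | ⟨x, hx⟩ | ⟨ρ', κ', rfl, rfl⟩
    · exact ⟨x, t - κ - 1, by
        linear_combination (3 * x + (t - ρ - κ) + (2 * ρ + 1)) * hx - ht⟩
    · exact ⟨x, -(t - κ), by
        linear_combination (3 * x - (t + ρ + 1 - κ) + (2 * ρ + 1)) * hx - ht⟩
    · obtain ⟨t', ht'⟩ : ∃ t', ρ' ^ 2 + ρ' = 2 * t' := by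
        have := Int.even_mul_succ_self ρ'
        obtain ⟨t, ht⟩ := this
        exact ⟨t, by linarith⟩
      exact ⟨t' - κ' - ρ', 3 * (t' - κ') - 2, by linear_combination (-9) * ht'⟩

namespace CLat

variable {L : CLat}

theorem q_add' (x y : ℤ) (w T : L.A) :
    L.q (x • w + y • T) = L.q w * x ^ 2 + 2 * L.B w T * (x * y) + L.q T * y ^ 2 := by
  simp only [q_def, B, map_add, map_smul, LinearMap.add_apply, LinearMap.smul_apply, smul_eq_mul,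
    L.symm T w]
  ring

/-- A class of discriminant `2 k²` and a class whose product with it is prime to `k`. -/
theorem star_coprime {k : ℤ} {w T : L.A} (hw : L.q w = 2 * k ^ 2) (hT : IsCoprime (L.B w T) k) :
    ∃ d, L.Lab d ∧ StarThree d := by
  obtain ⟨C, hC⟩ := q_even T
  obtain ⟨x, y, n, h⟩ := coprime_value C hT
  refine star_of_value (v := x • w + y • T) (n := n) ?_
  rw [q_add', hw, hC, ← h]
  ring

/-- The vector `w` is orthogonal to `h` and has the square `6`. -/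
def IsSix (w : L.A) : Prop := L.b w L.h = 0 ∧ L.b w w = 6

theorem exists_six {v : L.A} (hv : L.q v = 18) : ∃ w, IsSix w ∧ ∃ c : ℤ, w = v - c • L.h := by
  have h1 : (3 : ℤ) ∣ L.b v L.h ^ 2 := by
    rw [q_def] at hv
    exact ⟨L.b v v - 6, by linarith⟩
  obtain ⟨c, hc⟩ := Int.prime_three.dvd_of_dvd_pow h1
  refine ⟨v - c • L.h, ⟨?_, ?_⟩, c, rfl⟩
  · simp only [map_sub, map_smul, LinearMap.sub_apply, LinearMap.smul_apply, smul_eq_mul, L.hh, hc]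
    ring
  · rw [q_def, hc] at hv
    simp only [map_sub, map_smul, LinearMap.sub_apply, LinearMap.smul_apply, smul_eq_mul, L.hh, hs,
      hc]
    linarith

theorem IsSix.q {w : L.A} (h : IsSix w) : L.q w = 18 := by
  rw [q_def, h.1, h.2]; norm_num

theorem IsSix.B {w : L.A} (h : IsSix w) (T : L.A) : L.B w T = 3 * L.b w T := by
  unfold CLat.B; rw [h.1]; ring

theorem IsSix.star {w T : L.A} (h : IsSix w) {C : ℤ} (hC : L.q T = 2 * C) (hC2 : C % 2 = 1)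
    (h3 : C % 3 = 1 ∨ (C % 3 = 0 ∧ (L.b w T % 3 ≠ 0 ∨ C % 9 = 3))) :
    ∃ d, L.Lab d ∧ StarThree d := by
  obtain ⟨x, n, hx⟩ := value18 (L.b w T) C hC2 h3
  refine star_of_value (v := x • w + (1 : ℤ) • T) (n := n) ?_
  rw [q_add', h.q, h.B, hC]
  linear_combination 2 * hx

theorem q_mod_three (T : L.A) : (L.q T % 3 = 0 ∧ L.b T L.h % 3 = 0) ∨
    (L.q T % 3 = 2 ∧ L.b T L.h % 3 ≠ 0) := by
  obtain ⟨c, r, hr, hc⟩ : ∃ c r : ℤ, (r = 0 ∨ r = 1 ∨ r = 2) ∧ L.b T L.h = 3 * c + r :=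
    ⟨L.b T L.h / 3, L.b T L.h % 3, by omega, by omega⟩
  have h1 : L.q T = 3 * (L.b T T - 3 * c ^ 2 - 2 * c * r) - r ^ 2 := by
    rw [q_def, hc]; ring
  rw [hc, h1]
  rcases hr with rfl | rfl | rfl
  · left; omega
  · right; omega
  · right; omega

/-- For `X` in `C_18`: a class which is not divisible by three on `h` or on `w`. -/
theorem IsSix.star_of_three {w T : L.A} (h : IsSix w)
    (hT : ¬ (3 : ℤ) ∣ L.b T L.h ∨ ¬ (3 : ℤ) ∣ L.b w T) : ∃ d, L.Lab d ∧ StarThree d := by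
  -- the class `T` or `w + 2 T`
  have key : ∀ U : L.A, (¬ (3 : ℤ) ∣ L.b U L.h ∨ ¬ (3 : ℤ) ∣ L.b w U) → L.q U % 4 = 2 →
      ∃ d, L.Lab d ∧ StarThree d := by
    intro U hU h4
    obtain ⟨C, hC⟩ : ∃ C, L.q U = 2 * C := ⟨L.q U / 2, by omega⟩
    refine h.star hC (by omega) ?_
    rcases q_mod_three U with h5 | h5
    · right
      refine ⟨by omega, Or.inl ?_⟩
      rcases hU with hU | hU
      · omega
      · omega
    · left
      omega
  have h2 := q_even T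
  rw [Int.even_iff] at h2
  by_cases h4 : L.q T % 4 = 2
  · exact key T hT h4
  · refine key ((1 : ℤ) • w + (2 : ℤ) • T) ?_ ?_
    · have e1 : L.b ((1 : ℤ) • w + (2 : ℤ) • T) L.h = 2 * L.b T L.h := by
        simp only [map_add, map_smul, LinearMap.add_apply, LinearMap.smul_apply, smul_eq_mul, h.1]
        ring
      have e2 : L.b w ((1 : ℤ) • w + (2 : ℤ) • T) = 6 + 2 * L.b w T := by
        simp only [map_add, map_smul, smul_eq_mul, h.2]
        ring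
      rw [e1, e2]
      rcases hT with hT | hT
      · left; omega
      · right; omega
    · rw [q_add', h.q, h.B]
      omega

theorem mod_nine {m : ℤ} (hm : 0 < m) (hadm : Admissible (6 * m)) : m % 3 = 1 := by
  obtain ⟨h4, h9, hp⟩ := hadm
  have h5 : m.natAbs % 3 = 1 := by
    refine one_mod_three _ (by omega) fun q hq hqe => ?_
    have hq1 : (q : ℤ) ∣ m := Int.natCast_dvd.2 hqe
    have hq2 : q ≠ 2 := by
      rintro rfl
      obtain ⟨c, hc⟩ := hq1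
      exact h4 ⟨3 * c, by rw [hc]; push_cast; ring⟩
    have hq3 : q ≠ 3 := by
      rintro rfl
      obtain ⟨c, hc⟩ := hq1
      exact h9 ⟨2 * c, by rw [hc]; push_cast; ring⟩
    have h6 : ¬ q % 3 = 2 := fun hh => hp q hq hq2 hh (hq1.mul_left 6)
    have h7 : q % 3 ≠ 0 := fun h8 => hq3
      ((Nat.prime_dvd_prime_iff_eq Nat.prime_three hq).1 (Nat.dvd_of_mod_eq_zero h8)).symm
    omega
  omega

/-- The conditions (**) and (***) agree in `C_18`. -/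
theorem star_iff_18 {v : L.A} (hv : L.q v = 18) :
    (∃ d, L.Lab d ∧ StarThree d) ↔ ∃ d, L.Lab d ∧ Admissible d := by
  constructor
  · rintro ⟨d, h1, h2⟩
    exact ⟨d, h1, h2.admissible⟩
  · rintro ⟨d, hd, ha⟩
    obtain ⟨w, hw, -⟩ := exists_six hv
    have hpos := hd.pos
    obtain ⟨T, -, hT, hd0⟩ := id hd
    have h2 := q_even T
    rw [Int.even_iff] at h2
    have h4 : L.q T % 4 = 2 := by
      have := ha.1
      rw [← hT] at this
      omega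
    obtain ⟨C, hC⟩ : ∃ C, L.q T = 2 * C := ⟨L.q T / 2, by omega⟩
    refine hw.star hC (by omega) ?_
    rcases q_mod_three T with h5 | h5
    · right
      refine ⟨by omega, Or.inr ?_⟩
      obtain ⟨m, hm⟩ : ∃ m, L.q T = 6 * m := ⟨L.q T / 6, by omega⟩
      have h6 : m % 3 = 1 := by
        refine mod_nine (by omega) ?_
        rw [← hm, hT]
        exact ha
      omega
    · left
      omega

end CLat

end Pool.Agent.X312.CF
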