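import Pool.Agent.Y95.Q.K3
import Pool.Agent.X312.CF.Sq
import Pool.Agent.X312.CF.High
import Pool.Agent.X312.CF.Sharp

set_option autoImplicit false

namespace Pool.Agent.X312.CF

open Pool.Agent.Y95.Q (CubicFourfold H4)
open Pool.Agent.Y95.Q.H4

variable {X : CubicFourfold} (H : H4 X)

/-- the group of the Hodge classes -/
def hodgeSub : Submodule ℤ (Fin 23 → ℤ) where
  carrier := {v | H.IsHodge v}
  add_mem' := fun ha hb => H.isHodge_add ha hb
  zero_mem' := H.isHodge_zero
  smul_mem' := fun n _ hv => H.isHodge_smul n hv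

theorem mem_hodgeSub {v : Fin 23 → ℤ} : v ∈ hodgeSub H ↔ H.IsHodge v := Iff.rfl

/-- the intersection form -/
def hodgeForm : LinearMap.BilinForm ℤ (hodgeSub H) :=
  LinearMap.mk₂ ℤ (fun u v => H.ip u v) (fun a b c => H.ip_add_left _ _ _)
    (fun n a b => by
      show H.ip (n • (a : Fin 23 → ℤ)) b = n • H.ip a b
      rw [H.ip_smul_left]; rfl)
    (fun a b c => H.ip_add_right _ _ _)
    (fun n a b => by
      show H.ip a (n • (b : Fin 23 → ℤ)) = n • H.ip a b
      rw [H.ip_smul_right]; rfl)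

theorem hodgeForm_apply (u v : hodgeSub H) : hodgeForm H u v = H.ip u v := rfl

variable {H}

/-- the lattice of the Hodge classes -/
def hodgeLat (hH : H.IsCohomology) : CLat where
  A := hodgeSub H
  b := hodgeForm H
  symm := fun x y => hH.comm _ _
  pos := fun x hx => hH.pos x x.2 (fun h => hx (Subtype.ext h))
  h := ⟨H.h, hH.h_hodge⟩
  hh := hH.h_self
  even := fun x hx => by
    have h1 := hH.char x
    have h2 : H.ip (x : Fin 23 → ℤ) H.h = 0 := hx
    rw [h2, sub_zero] at h1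
    exact h1

theorem q_eq (hH : H.IsCohomology) (v : hodgeSub H) :
    (hodgeLat hH).q v = H.disc v := by
  have h1 : (hodgeLat hH).q v = 3 * H.ip v v - H.ip v H.h ^ 2 := CLat.q_def (L := hodgeLat hH) v
  rw [h1]
  unfold H4.disc
  rw [hH.comm H.h v]

theorem sat_iff (hH : H.IsCohomology) (v : hodgeSub H) :
    (∀ (u : (hodgeLat hH).A) (n : ℤ), n ≠ 0 →
      n • u ∈ Submodule.span ℤ {(hodgeLat hH).h, (v : (hodgeLat hH).A)} →
      u ∈ Submodule.span ℤ {(hodgeLat hH).h, (v : (hodgeLat hH).A)}) ↔ H.Saturated v := by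
  constructor
  · intro h x m a b hm hx
    have hxH : H.IsHodge x := by
      refine H.isHodge_of_smul hm ?_
      rw [hx]
      exact H.isHodge_add (H.isHodge_smul _ hH.h_hodge) (H.isHodge_smul _ v.2)
    have h1 := h ⟨x, hxH⟩ m hm (CLat.mem_span.2 ⟨a, b, Subtype.ext hx.symm⟩)
    obtain ⟨a', b', h2⟩ := CLat.mem_span.1 h1
    exact ⟨a', b', (congrArg Subtype.val h2).symm⟩
  · intro h u n hn hu
    obtain ⟨a, b, h1⟩ := CLat.mem_span.1 hu
    obtain ⟨a', b', h2⟩ := h u.1 n a b hn (congrArg Subtype.val h1).symm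
    exact CLat.mem_span.2 ⟨a', b', Subtype.ext h2.symm⟩

end Pool.Agent.X312.CF
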